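import Pool.Agent.H106Z.BlkB1
import Pool.Agent.H615Z.HC.Ratio
import Pool.Agent.H738Z.BlkHilb

set_option autoImplicit false

open Finset Filter Topology

namespace Pool.Agent.H590Z.HC

namespace H730E2

lemma PP_pos (η : ℝ) (K : ℕ) : 0 < PP η K := prod_pos (fun _ _ => by positivity)

lemma d_ge (T s h v : ℝ) (k : ℕ) (hh : 0 ≤ h) :
    h ≤ ‖((nd T s k + v : ℝ) : ℂ) - zr T s h k‖ := by
  refine le_trans ?_ (Complex.abs_im_le_norm _)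
  have : (((nd T s k + v : ℝ) : ℂ) - zr T s h k).im = -((-1) ^ k * h) := by
    have e : ((-1 : ℂ) ^ k * h) = (((-1) ^ k * h : ℝ) : ℂ) := by push_cast; ring
    rw [zr, e]
    simp only [Complex.sub_im, Complex.add_im, Complex.ofReal_im, Complex.mul_im, Complex.I_re,
      Complex.I_im, Complex.ofReal_re]
    ring
  rw [this, abs_neg, abs_mul, abs_pow, abs_neg, abs_one, one_pow, one_mul, abs_of_nonneg hh]

/-- solving for `ξ` -/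
lemma solve (T s h v : ℝ) (K k J : ℕ) (c : ℕ → ℂ) (ξ ψ Ω : ℂ) (hs : 0 < s) (hh : s ≤ h)
    (hv : |v| < s) (hv0 : v ≠ 0) (hJ : (h / s) ^ 2 ≤ J) (hk1 : J ≤ k) (hk2 : k + J < K)
    (he : ξ * ∏ j ∈ range K, (((nd T s k + v : ℝ) : ℂ) - zr T s h j) /
        (((nd T s k + v : ℝ) : ℂ) - nd T s j) =
      ψ * (∑ j ∈ range K, c j / (((nd T s k + v : ℝ) : ℂ) - nd T s j) + Ω)) :
    ξ = ψ * (∏ j ∈ (range K).erase k, (((nd T s k + v : ℝ) : ℂ) - nd T s j) /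
        (((nd T s k + v : ℝ) : ℂ) - zr T s h j)) / (((nd T s k + v : ℝ) : ℂ) - zr T s h k) *
      (c k + v * ∑ j ∈ (range K).erase k, c j / ((((k : ℝ) - j) * s + v : ℝ) : ℂ) + v * Ω) ∧
    ‖∏ j ∈ (range K).erase k, (((nd T s k + v : ℝ) : ℂ) - nd T s j) /
        (((nd T s k + v : ℝ) : ℂ) - zr T s h j)‖ ≤ 3 / PP (h / s) K := by
  have hk : k ∈ range K := mem_range.2 (by omega)
  have hb := blk_int T s h v K k J hs hh hv hJ hk1 hk2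
  rw [← norm_prod] at hb
  have hP := PP_pos (h / s) K
  rw [← mul_prod_erase _ _ hk, ← add_sum_erase _ _ hk] at he
  have e1 : ((nd T s k + v : ℝ) : ℂ) - nd T s k = v := by push_cast; ring
  have e2 : ∑ j ∈ (range K).erase k, c j / (((nd T s k + v : ℝ) : ℂ) - nd T s j) =
      ∑ j ∈ (range K).erase k, c j / ((((k : ℝ) - j) * s + v : ℝ) : ℂ) := by
    refine sum_congr rfl (fun j _ => ?_)
    congr 1
    simp only [nd]; push_cast; ring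
  have e3 : ∏ j ∈ (range K).erase k, (((nd T s k + v : ℝ) : ℂ) - nd T s j) /
      (((nd T s k + v : ℝ) : ℂ) - zr T s h j) = (∏ j ∈ (range K).erase k,
        (((nd T s k + v : ℝ) : ℂ) - zr T s h j) / (((nd T s k + v : ℝ) : ℂ) - nd T s j))⁻¹ := by
    rw [← prod_inv_distrib]
    exact prod_congr rfl (fun j _ => (inv_div _ _).symm)
  rw [e1, e2] at he
  rw [e3]
  have hd := d_ge T s h v k (by linarith)
  generalize (∏ j ∈ (range K).erase k,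
    (((nd T s k + v : ℝ) : ℂ) - zr T s h j) / (((nd T s k + v : ℝ) : ℂ) - nd T s j)) = R at *
  generalize (∑ j ∈ (range K).erase k, c j / ((((k : ℝ) - j) * s + v : ℝ) : ℂ)) = Z at *
  generalize (((nd T s k + v : ℝ) : ℂ) - zr T s h k) = d at *
  have hR : 0 < ‖R‖ := by linarith
  have hR0 : R ≠ 0 := norm_pos_iff.1 hR
  have hd0 : d ≠ 0 := norm_pos_iff.1 (by linarith)
  have hv1 : (v : ℂ) ≠ 0 := by exact_mod_cast hv0
  constructor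
  · field_simp
    field_simp at he
    linear_combination he
  · rw [norm_inv, inv_eq_one_div, div_le_div_iff₀ hR hP]
    linarith

lemma chi (ψ X d : ℂ) (T h P : ℝ) (hh : 0 < h) (hψ : ‖ψ‖ ≤ T) (hX : ‖X‖ ≤ P) (hd : h ≤ ‖d‖) :
    ‖ψ * X / d‖ ≤ T * P / h := by
  have hT : 0 ≤ T := (norm_nonneg _).trans hψ
  have hP : 0 ≤ P := (norm_nonneg _).trans hX
  rw [norm_div, norm_mul]
  exact div_le_div₀ (by positivity) (mul_le_mul hψ hX (norm_nonneg _) hT) hh hd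

/-- the pointwise estimate -/
lemma point (ψ ψ' X X' d ck Z Z' Ω Ω' : ℂ) (T h P σ s u p ω : ℝ) (hσ : 31 ≤ σ) (hσs : σ ≤ s)
    (hh : s ≤ h) (hP : 0 < P) (hT : 0 ≤ T) (hψ : ‖ψ‖ ≤ 2 * T) (hψ' : ‖ψ'‖ ≤ 2 * T)
    (hdψ : ‖ψ' - ψ‖ ≤ T / σ) (hX : ‖X‖ ≤ 3 / P) (hX' : ‖X'‖ ≤ 3 / P)
    (hdX : ‖X' - X‖ ≤ 30 / σ * ‖X‖) (hd : h ≤ ‖d‖) (hd' : h ≤ ‖d + 1 / 2‖) (hc : ‖ck‖ ≤ p)
    (hu : |u| ≤ s / 2) (hZ' : ‖Z'‖ ≤ p / s) (hdZ : ‖Z' - Z‖ ≤ p / s ^ 2) (hΩ : ‖Ω‖ ≤ ω)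
    (hΩ' : ‖Ω'‖ ≤ ω) :
    ‖ψ' * X' / (d + 1 / 2) * (ck + ((u + 1 / 2 : ℝ) : ℂ) * Z' + ((u + 1 / 2 : ℝ) : ℂ) * Ω')‖ ≤
      12 * (T / (h * P) * p) + 6 * (T / (h * P) * s * ω) ∧
    ‖ψ' * X' / (d + 1 / 2) * (ck + ((u + 1 / 2 : ℝ) : ℂ) * Z' + ((u + 1 / 2 : ℝ) : ℂ) * Ω') -
      ψ * X / d * (ck + u * Z + u * Ω)‖ ≤
      378 * (T / (h * P) * p / σ) + 18 * (T / (h * P) * s * ω) := by
  have hσ0 : 0 < σ := by linarith
  have hs0 : 0 < s := by linarith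
  have hh0 : 0 < h := by linarith
  have hp : 0 ≤ p := (norm_nonneg _).trans hc
  have hω : 0 ≤ ω := (norm_nonneg _).trans hΩ
  set Λ := T / (h * P) with hΛ
  have hΛ0 : 0 ≤ Λ := by positivity
  have hu1 : ‖(u : ℂ)‖ ≤ s / 2 := by rwa [Complex.norm_real, Real.norm_eq_abs]
  have hu2 : ‖((u + 1 / 2 : ℝ) : ℂ)‖ ≤ s := by
    rw [Complex.norm_real, Real.norm_eq_abs]
    have := abs_le.1 hu
    exact abs_le.2 ⟨by linarith, by linarith⟩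
  have hχ : ‖ψ * X / d‖ ≤ 6 * Λ := (chi _ _ _ _ _ _ hh0 hψ hX hd).trans (le_of_eq (by
    rw [hΛ]; field_simp; ring))
  have hχ' : ‖ψ' * X' / (d + 1 / 2)‖ ≤ 6 * Λ := (chi _ _ _ _ _ _ hh0 hψ' hX' hd').trans
    (le_of_eq (by rw [hΛ]; field_simp; ring))
  have hW' : ‖ck + ((u + 1 / 2 : ℝ) : ℂ) * Z' + ((u + 1 / 2 : ℝ) : ℂ) * Ω'‖ ≤ 2 * p + s * ω := by
    refine (norm_add₃_le).trans ?_
    rw [norm_mul, norm_mul]
    have a1 := mul_le_mul hu2 hZ' (norm_nonneg _) hs0.le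
    have a2 := mul_le_mul hu2 hΩ' (norm_nonneg _) hs0.le
    rw [mul_div_cancel₀ _ hs0.ne'] at a1
    linarith
  have hdW : ‖(ck + ((u + 1 / 2 : ℝ) : ℂ) * Z' + ((u + 1 / 2 : ℝ) : ℂ) * Ω') -
      (ck + u * Z + u * Ω)‖ ≤ p / σ + 2 * (s * ω) := by
    have e : (ck + ((u + 1 / 2 : ℝ) : ℂ) * Z' + ((u + 1 / 2 : ℝ) : ℂ) * Ω') - (ck + u * Z + u * Ω) =
        (u * (Z' - Z) + 1 / 2 * Z') + ((u + 1 / 2 : ℝ) : ℂ) * Ω' + -(u * Ω) := by
      push_cast; ring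
    rw [e]
    refine (norm_add₃_le).trans ?_
    have a0 := norm_add_le ((u : ℂ) * (Z' - Z)) (1 / 2 * Z')
    rw [norm_mul, norm_mul] at a0
    rw [norm_neg, norm_mul, norm_mul]
    have a1 := mul_le_mul hu1 hdZ (norm_nonneg _) (by positivity)
    have a2 := mul_le_mul hu2 hΩ' (norm_nonneg _) hs0.le
    have a3 := mul_le_mul hu1 hΩ (norm_nonneg _) (by positivity)
    have a4 : s / 2 * (p / s ^ 2) = p / s / 2 := by field_simp
    have a5 : ‖(1 / 2 : ℂ)‖ = 1 / 2 := by simp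
    have a6 : p / s ≤ p / σ := div_le_div_of_nonneg_left hp hσ0 hσs
    have a7 : 0 ≤ s * ω := by positivity
    rw [a5] at a0
    linarith
  have hdχ : ‖ψ' * X' / (d + 1 / 2) - ψ * X / d‖ ≤ 186 * (Λ / σ) := by
    have hd0 : d ≠ 0 := norm_pos_iff.1 (by linarith)
    have hd1 : d + 1 / 2 ≠ 0 := norm_pos_iff.1 (by linarith)
    have e : ψ' * X' / (d + 1 / 2) - ψ * X / d = (ψ' - ψ) * X' / (d + 1 / 2) +
        ψ * (X' - X) / (d + 1 / 2) + ψ * X / d * (-1 / 2) / (d + 1 / 2) := by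
      generalize hD : d + 1 / 2 = D at *
      have : d = D - 1 / 2 := by rw [← hD]; ring
      field_simp
      rw [this]; ring
    rw [e]
    refine (norm_add₃_le).trans ?_
    have a1 := chi _ _ _ _ _ _ hh0 hdψ hX' hd'
    have a2 := chi _ _ _ _ _ _ hh0 hψ (hdX.trans (mul_le_mul_of_nonneg_left hX (by positivity))) hd'
    have a3 := chi (ψ * X / d) (-1 / 2) _ _ _ (1 / 2) hh0 hχ (by simp) hd'
    have b1 : T / σ * (3 / P) / h = 3 * (Λ / σ) := by rw [hΛ]; field_simp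
    have b2 : 2 * T * (30 / σ * (3 / P)) / h = 180 * (Λ / σ) := by rw [hΛ]; field_simp; ring
    have b3 : 6 * Λ * (1 / 2) / h = 3 * (Λ / h) := by ring
    have b4 : Λ / h ≤ Λ / σ := div_le_div_of_nonneg_left hΛ0 hσ0 (by linarith)
    linarith
  constructor
  · rw [norm_mul]
    refine (mul_le_mul hχ' hW' (norm_nonneg _) (by positivity)).trans (le_of_eq (by ring))
  · generalize (ck + ((u + 1 / 2 : ℝ) : ℂ) * Z' + ((u + 1 / 2 : ℝ) : ℂ) * Ω') = W' at *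
    generalize (ck + u * Z + u * Ω) = W at *
    generalize ψ' * X' / (d + 1 / 2) = χ' at *
    generalize ψ * X / d = χ at *
    have e : χ' * W' - χ * W = (χ' - χ) * W' + χ * (W' - W) := by ring
    rw [e]
    refine (norm_add_le _ _).trans ?_
    rw [norm_mul, norm_mul]
    have a1 := mul_le_mul hdχ hW' (norm_nonneg _) (by positivity)
    have a2 := mul_le_mul hχ hdW (norm_nonneg _) (by positivity)
    have a3 : Λ / σ * (s * ω) ≤ Λ / 31 * (s * ω) :=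
      mul_le_mul_of_nonneg_right (div_le_div_of_nonneg_left hΛ0 (by norm_num) hσ) (by positivity)
    have b1 : 186 * (Λ / σ) * (2 * p + s * ω) = 372 * (Λ * p / σ) + 186 * (Λ / σ * (s * ω)) := by
      ring
    have b2 : 6 * Λ * (p / σ + 2 * (s * ω)) = 6 * (Λ * p / σ) + 12 * (Λ * s * ω) := by ring
    have b3 : Λ / 31 * (s * ω) = 1 / 31 * (Λ * s * ω) := by ring
    linarith

lemma fibre (T s K : ℕ) (hs : 0 < s) (G : Finset ℤ) (κ : ℤ → ℕ) (q : ℕ → ℝ) (hq : ∀ k, 0 ≤ q k)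
    (h1 : ∀ n ∈ G, κ n < K) (h2 : ∀ n ∈ G, |(n : ℝ) - nd T s (κ n)| ≤ s / 2) :
    ∑ n ∈ G, q (κ n) ≤ 2 * s * ∑ k ∈ range K, q k := by
  rw [← sum_fiberwise_of_maps_to (s := G) (t := range K) (g := κ) (fun n hn => mem_range.2 (h1 n hn)),
    mul_sum]
  refine sum_le_sum (fun k _ => ?_)
  rw [sum_congr rfl (g := fun _ => q k) (fun n hn => by rw [(mem_filter.1 hn).2]), sum_const,
    nsmul_eq_mul]
  refine mul_le_mul_of_nonneg_right ?_ (hq k)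
  have hsub : G.filter (fun n => κ n = k) ⊆ Finset.Ico ((T : ℤ) + k * s - s) (T + k * s + s) := by
    intro n hn
    obtain ⟨hn', rfl⟩ := mem_filter.1 hn
    have h3 := abs_le.1 (h2 n hn')
    have hs' : (0 : ℝ) < s := by exact_mod_cast hs
    simp only [nd] at h3
    rw [Finset.mem_Ico]
    constructor
    · have : ((T : ℝ) + κ n * s - s) ≤ n := by linarith
      exact_mod_cast this
    · have : (n : ℝ) < (T : ℝ) + κ n * s + s := by linarith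
      exact_mod_cast this
  have h4 := card_le_card hsub
  rw [Int.card_Ico] at h4
  have h5 : ((T : ℤ) + k * s + s - (T + k * s - s)).toNat = 2 * s := by omega
  rw [h5] at h4
  exact_mod_cast h4

end H730E2

open H730E2 in
theorem est_int (T s K J : ℕ) (h a ω : ℝ) (c : ℕ → ℂ) (G : Finset ℤ) (ξ ψ Ω : ℝ → ℂ)
    (hH : ∀ (c : ℤ → ℂ) (F G : Finset ℤ),
      ∑ m ∈ G, ‖∑ n ∈ F, c n / ((m : ℂ) + 1 / 2 - n)‖ ^ 2 ≤ 10 * ∑ n ∈ F, ‖c n‖ ^ 2)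
    (hs : 1000 ≤ s) (hh : (s : ℝ) ≤ h) (hh' : h ≤ 3 * (s : ℝ) ^ 2) (hJ : (h / s) ^ 2 ≤ J) (hω : 0 ≤ ω)
    (hc : (T / (h * PP (h / s) K)) ^ 2 * ∑ j ∈ range K, ‖c j‖ ^ 2 ≤ 4 * a ^ 2) (hG : G.card ≤ T)
    (hk : ∀ n ∈ G, ∃ k : ℕ, J ≤ k ∧ k + J < K ∧ |(n : ℝ) - nd T s k| ≤ s / 2 ∧ (n : ℝ) ≠ nd T s k)
    (hξ : ∀ n ∈ G, ∀ p : ℝ, p = n ∨ p = n + 1 / 2 →
      ξ p * ∏ j ∈ range K, ((p : ℂ) - zr T s h j) / ((p : ℂ) - nd T s j) =
        ψ p * (∑ j ∈ range K, c j / ((p : ℂ) - nd T s j) + Ω p) ∧ ‖ψ p‖ ≤ 2 * T ∧ ‖Ω p‖ ≤ ω)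
    (hψ : ∀ n ∈ G, ‖ψ (n + 1 / 2) - ψ n‖ ≤ T / √s) :
    ∑ n ∈ G, ‖ξ (n + 1 / 2)‖ ^ 2 ≤ 10 ^ 11 * (s * a ^ 2 + T * (T / (h * PP (h / s) K) * s * ω) ^ 2) ∧
    ∑ n ∈ G, ‖ξ (n + 1 / 2) - ξ n‖ ^ 2 ≤
      10 ^ 11 * (a ^ 2 + T * (T / (h * PP (h / s) K) * s * ω) ^ 2) := by
  have hs' : (1000 : ℝ) ≤ s := by exact_mod_cast hs
  have hs0 : (0 : ℝ) < s := by linarith
  obtain ⟨p, hp1, hp2⟩ := blk_hilb c s K hs' hH
  choose! κ hκ using hk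
  have hσ2 : √(s : ℝ) ^ 2 = s := Real.sq_sqrt hs0.le
  have hσ : 31 ≤ √(s : ℝ) := Real.le_sqrt_of_sq_le (by linarith)
  have hσs : √(s : ℝ) ≤ s := by nlinarith
  have hP := PP_pos (h / s) K
  have key : ∀ n ∈ G, ‖ξ (n + 1 / 2)‖ ≤ 12 * (T / (h * PP (h / s) K) * p (κ n)) +
      6 * (T / (h * PP (h / s) K) * s * ω) ∧ ‖ξ (n + 1 / 2) - ξ n‖ ≤
      378 * (T / (h * PP (h / s) K) * p (κ n) / √s) + 18 * (T / (h * PP (h / s) K) * s * ω) := by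
    intro n hn
    obtain ⟨k1, k2, k3, k4⟩ := hκ n hn
    obtain ⟨e1, a1, b1⟩ := hξ n hn n (Or.inl rfl)
    obtain ⟨e2, a2, b2⟩ := hξ n hn (n + 1 / 2) (Or.inr rfl)
    have hψn := hψ n hn
    have hu0 : (n : ℝ) - nd T s (κ n) + 1 / 2 ≠ 0 := by
      intro h0
      have h1 : (2 * (n - T - κ n * s) + 1 : ℝ) = 0 := by simp only [nd] at h0; linarith
      have h2 : (2 * (n - T - κ n * s) + 1 : ℤ) = 0 := by exact_mod_cast h1
      omega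
    obtain ⟨u, hu⟩ : ∃ u : ℝ, (n : ℝ) = nd T s (κ n) + u := ⟨n - nd T s (κ n), by ring⟩
    generalize κ n = k at *
    generalize (n : ℝ) = x at *
    subst hu
    rw [add_sub_cancel_left] at k3 hu0
    have k5 := abs_le.1 k3
    rw [add_assoc] at e2 a2 b2 hψn ⊢
    obtain ⟨f1, g1⟩ := solve T s h u K k J c _ _ _ hs0 hh (abs_lt.2 ⟨by linarith, by linarith⟩)
      (fun h0 => k4 (by rw [h0, add_zero])) hJ k1 k2 e1
    obtain ⟨f2, g2⟩ := solve T s h (u + 1 / 2) K k J c _ _ _ hs0 hh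
      (abs_lt.2 ⟨by linarith, by linarith⟩) hu0 hJ k1 k2 e2
    have r := blk_ratio T s h u √s K k hs' hh hh' (by linarith) hσ2.le k3
    rw [add_assoc] at r
    obtain ⟨c1, c2⟩ := hp2 k (by omega)
    obtain ⟨-, z2, z3⟩ := c2 u k3
    simp only [add_assoc] at z2 z3
    have d1 := d_ge T s h u k (by linarith)
    have d2 := d_ge T s h (u + 1 / 2) k (by linarith)
    have ed : ((nd T s k + (u + 1 / 2) : ℝ) : ℂ) - zr T s h k =
        ((nd T s k + u : ℝ) : ℂ) - zr T s h k + 1 / 2 := by push_cast; ring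
    rw [ed] at d2 f2
    rw [f1, f2]
    exact point _ _ _ _ _ _ _ _ _ _ T h _ √s s u (p k) ω hσ hσs hh hP (Nat.cast_nonneg T) a1 a2 hψn
      g1 g2 r d1 d2 c1 k3 z2 z3 b1 b2
  have hf := fibre T s K (by omega) G κ (fun k => p k ^ 2) (fun _ => sq_nonneg _)
    (fun n hn => by have := hκ n hn; omega) (fun n hn => (hκ n hn).2.2.1)
  set Λ := T / (h * PP (h / s) K)
  set B := Λ * s * ω
  have hG' : (G.card : ℝ) ≤ T := by exact_mod_cast hG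
  have hm : Λ ^ 2 * ∑ n ∈ G, p (κ n) ^ 2 ≤ 8 * 10 ^ 4 * (s * a ^ 2) := by
    calc Λ ^ 2 * ∑ n ∈ G, p (κ n) ^ 2 ≤ Λ ^ 2 * (2 * s * (10 ^ 4 * ∑ j ∈ range K, ‖c j‖ ^ 2)) :=
          mul_le_mul_of_nonneg_left (hf.trans (mul_le_mul_of_nonneg_left hp1 (by positivity)))
            (sq_nonneg _)
      _ = 2 * 10 ^ 4 * s * (Λ ^ 2 * ∑ j ∈ range K, ‖c j‖ ^ 2) := by ring
      _ ≤ 2 * 10 ^ 4 * s * (4 * a ^ 2) := mul_le_mul_of_nonneg_left hc (by positivity)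
      _ = _ := by ring
  have hB : (G.card : ℝ) * B ^ 2 ≤ T * B ^ 2 := mul_le_mul_of_nonneg_right hG' (sq_nonneg _)
  have hB0 : 0 ≤ (T : ℝ) * B ^ 2 := by positivity
  constructor
  · have h1 : ∑ n ∈ G, ‖ξ (n + 1 / 2)‖ ^ 2 ≤ ∑ n ∈ G, (288 * Λ ^ 2 * p (κ n) ^ 2 + 72 * B ^ 2) := by
      refine sum_le_sum (fun n hn => ?_)
      refine (pow_le_pow_left₀ (norm_nonneg _) (key n hn).1 2).trans ?_
      nlinarith [sq_nonneg (12 * (Λ * p (κ n)) - 6 * B)]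
    rw [sum_add_distrib, ← mul_sum, sum_const, nsmul_eq_mul] at h1
    have : 0 ≤ (s : ℝ) * a ^ 2 := by positivity
    nlinarith
  · have h1 : ∑ n ∈ G, ‖ξ (n + 1 / 2) - ξ n‖ ^ 2 ≤
        ∑ n ∈ G, (285768 / s * Λ ^ 2 * p (κ n) ^ 2 + 648 * B ^ 2) := by
      refine sum_le_sum (fun n hn => ?_)
      refine (pow_le_pow_left₀ (norm_nonneg _) (key n hn).2 2).trans ?_
      have e : 285768 / s * Λ ^ 2 * p (κ n) ^ 2 = 285768 * (Λ * p (κ n) / √s) ^ 2 := by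
        rw [div_pow (Λ * p (κ n)), hσ2]; ring
      rw [e]
      nlinarith [sq_nonneg (378 * (Λ * p (κ n) / √s) - 18 * B)]
    rw [sum_add_distrib, ← mul_sum, sum_const, nsmul_eq_mul, mul_assoc] at h1
    have h2 := mul_le_mul_of_nonneg_left hm (show 0 ≤ 285768 / (s : ℝ) by positivity)
    have h3 : 285768 / (s : ℝ) * (8 * 10 ^ 4 * (s * a ^ 2)) = 285768 * 8 * 10 ^ 4 * a ^ 2 := by
      field_simp
    have : 0 ≤ a ^ 2 := sq_nonneg a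
    nlinarith

end Pool.Agent.H590Z.HC
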